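import Mathlib

open Filter Topology

namespace Pool.Agent.Results.MP_43f217_an.ConnNotClosed

variable {X : Type} {E : X → Type} [∀ x, NormedAddCommGroup (E x)]
  [∀ x, InnerProductSpace ℂ (E x)]

/-- `(X, b)` is a weighted graph: `b ≥ 0` is symmetric, vanishes on the diagonal and every
row is summable. -/
def IsWeightedGraph (b : X → X → ℝ) : Prop :=
  (∀ x y, 0 ≤ b x y) ∧ (∀ x y, b x y = b y x) ∧ (∀ x, b x x = 0) ∧ ∀ x, Summable (b x)

/-- `(X, b)` is connected: any two vertices are joined by a finite path of edges of positive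
weight. -/
def IsConnectedGraph (b : X → X → ℝ) : Prop :=
  ∀ x y, Relation.ReflTransGen (fun a c => 0 < b a c) x y

/-- The section `f` lies in `ℓ²(X, μ; E)`. -/
def MemL2 (μ : X → ℝ) (f : ∀ x, E x) : Prop :=
  Summable fun x => ‖f x‖ ^ 2 * μ x

/-- The norm of `ℓ²(X, μ; E)`. -/
noncomputable def normL2 (μ : X → ℝ) (f : ∀ x, E x) : ℝ :=
  Real.sqrt (∑' x, ‖f x‖ ^ 2 * μ x)

/-- The section `f` lies in the formal domain `𝓕_E`. -/
def InFormalDomain (b : X → X → ℝ) (f : ∀ x, E x) : Prop :=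
  ∀ x, Summable fun y => b x y * ‖f y‖

/-- The formal magnetic Schrödinger operator `𝓜`. -/
noncomputable def formalOp (b : X → X → ℝ) (μ : X → ℝ) (Φ : ∀ x y, E y ≃ₗᵢ[ℂ] E x)
    (W : ∀ x, E x →L[ℂ] E x) (f : ∀ x, E x) (x : X) : E x :=
  (μ x : ℂ)⁻¹ • (∑' y, (b x y : ℂ) • (f x - Φ x y (f y))) + W x (f x)

/-- The domain of the maximal restriction `M^max`. -/
def InMaxDomain (b : X → X → ℝ) (μ : X → ℝ) (Φ : ∀ x y, E y ≃ₗᵢ[ℂ] E x)
    (W : ∀ x, E x →L[ℂ] E x) (f : ∀ x, E x) : Prop :=
  InFormalDomain b f ∧ MemL2 μ f ∧ MemL2 μ (formalOp b μ Φ W f)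

/-- `(f, g)` lies in the closure, in `ℓ² × ℓ²`, of the graph of `M^max`. -/
def InGraphClosure (b : X → X → ℝ) (μ : X → ℝ) (Φ : ∀ x y, E y ≃ₗᵢ[ℂ] E x)
    (W : ∀ x, E x →L[ℂ] E x) (f g : ∀ x, E x) : Prop :=
  MemL2 μ f ∧ MemL2 μ g ∧ ∃ u : ℕ → ∀ x, E x, (∀ n, InMaxDomain b μ Φ W (u n)) ∧
    Tendsto (fun n => normL2 μ (u n - f)) atTop (𝓝 0) ∧
    Tendsto (fun n => normL2 μ (formalOp b μ Φ W (u n) - g)) atTop (𝓝 0)

/-- `M^max` is a closed operator on `ℓ²(X, μ; E)`: its graph is closed. -/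
def MaxIsClosed (b : X → X → ℝ) (μ : X → ℝ) (Φ : ∀ x y, E y ≃ₗᵢ[ℂ] E x)
    (W : ∀ x, E x →L[ℂ] E x) : Prop :=
  ∀ f g, InGraphClosure b μ Φ W f g → InMaxDomain b μ Φ W f ∧ formalOp b μ Φ W f = g

/-- `M^max` is closable: the closure of its graph is again a graph. -/
def MaxIsClosable (b : X → X → ℝ) (μ : X → ℝ) (Φ : ∀ x y, E y ≃ₗᵢ[ℂ] E x)
    (W : ∀ x, E x →L[ℂ] E x) : Prop :=
  ∀ f g g', InGraphClosure b μ Φ W f g → InGraphClosure b μ Φ W f g' → g = g'

/-! The example: a centre `none` joined to the first vertex of each of countably many rays. -/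

/-- Edge weights of the tree. -/
noncomputable def bT : Option (ℕ × ℕ) → Option (ℕ × ℕ) → ℝ
  | none, none => 0
  | none, some (k, j) => if j = 0 then (1 / 2) ^ k else 0
  | some (k, j), none => if j = 0 then (1 / 2) ^ k else 0
  | some (k, j), some (k', j') => if k = k' ∧ (j' = j + 1 ∨ j = j' + 1) then (1 / 2) ^ k else 0

/-- Vertex weights of the tree. -/
noncomputable def muT : Option (ℕ × ℕ) → ℝ
  | none => 1
  | some (k, j) => (1 / 8) ^ k * (1 / 2) ^ j / ((j : ℝ) + 1) ^ 2

/-- The test functions: linear on the `n`-th ray, zero elsewhere. -/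
noncomputable def uT (n : ℕ) : Option (ℕ × ℕ) → ℂ
  | none => 0
  | some (k, j) => if k = n then ((j : ℂ) + 1) * 2 ^ n else 0

/-- The neighbour of a ray vertex on the side of the centre. -/
def prev : ℕ × ℕ → Option (ℕ × ℕ)
  | (_, 0) => none
  | (k, j + 1) => some (k, j)

/-- Minus the indicator of the centre. -/
noncomputable def gT : Option (ℕ × ℕ) → ℂ
  | none => -1
  | some _ => 0

lemma bT_some_eq_zero (k j : ℕ) (y : Option (ℕ × ℕ))
    (hy : y ∉ ({prev (k, j), some (k, j + 1)} : Finset (Option (ℕ × ℕ)))) :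
    bT (some (k, j)) y = 0 := by
  simp only [Finset.mem_insert, Finset.mem_singleton, not_or] at hy
  obtain ⟨h1, h2⟩ := hy
  rcases y with _ | ⟨k', j'⟩
  · rcases j with _ | j
    · exact absurd rfl h1
    · simp [bT]
  · simp only [bT]
    rw [if_neg]
    rintro ⟨rfl, h | h⟩
    · exact h2 (by rw [h])
    · subst h
      exact h1 rfl

lemma prev_ne (k j : ℕ) : prev (k, j) ≠ some (k, j + 1) := by
  rcases j with _ | j
  · simp [prev]
  · simp only [prev, ne_eq, Option.some.injEq, Prod.mk.injEq, true_and]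
    omega

lemma bT_none_eq_zero (y : Option (ℕ × ℕ)) (hy : y ∉ Set.range fun k : ℕ => some (k, 0)) :
    bT none y = 0 := by
  rcases y with _ | ⟨k, j⟩
  · rfl
  · simp only [bT]
    rw [if_neg]
    rintro rfl
    exact hy ⟨k, rfl⟩

lemma graph_bT : IsWeightedGraph bT := by
  refine ⟨?_, ?_, ?_, ?_⟩
  · rintro (_ | ⟨k, j⟩) (_ | ⟨k', j'⟩) <;> simp only [bT] <;> positivity
  · rintro (_ | ⟨k, j⟩) (_ | ⟨k', j'⟩)
    · rfl
    · rfl
    · rfl
    · simp only [bT]
      by_cases h : k = k'
      · subst h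
        simp [or_comm]
      · rw [if_neg (fun hh => h hh.1), if_neg (fun hh => h hh.1.symm)]
  · rintro (_ | ⟨k, j⟩)
    · rfl
    · simp [bT]
  · rintro (_ | ⟨k, j⟩)
    · have hinj : Function.Injective fun k : ℕ => (some (k, 0) : Option (ℕ × ℕ)) := by
        intro a b h
        simpa using h
      rw [← hinj.summable_iff (fun y hy => bT_none_eq_zero y hy)]
      have : (bT none ∘ fun k : ℕ => (some (k, 0) : Option (ℕ × ℕ))) = fun k => (1 / 2 : ℝ) ^ k := by
        funext k
        simp [bT]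
      rw [this]
      exact summable_geometric_two
    · exact summable_of_ne_finset_zero (bT_some_eq_zero k j)

lemma reach_bT (k j : ℕ) :
    Relation.ReflTransGen (fun a c => 0 < bT a c) none (some (k, j)) := by
  induction j with
  | zero => exact Relation.ReflTransGen.single (by simp [bT])
  | succ j ih => exact ih.tail (by simp [bT])

lemma reach_bT' (k j : ℕ) :
    Relation.ReflTransGen (fun a c => 0 < bT a c) (some (k, j)) none := by
  induction j with
  | zero => exact Relation.ReflTransGen.single (by simp [bT])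
  | succ j ih => exact Relation.ReflTransGen.head (by simp [bT]) ih

lemma conn_bT : IsConnectedGraph bT := by
  rintro (_ | ⟨k, j⟩) (_ | ⟨k', j'⟩)
  · exact Relation.ReflTransGen.refl
  · exact reach_bT _ _
  · exact reach_bT' _ _
  · exact (reach_bT' _ _).trans (reach_bT _ _)

lemma locFin_bT (x : Option (ℕ × ℕ)) (hx : x ≠ none) : {y | bT x y ≠ 0}.Finite := by
  rcases x with _ | ⟨k, j⟩
  · exact absurd rfl hx
  · refine (Finset.finite_toSet
      ({prev (k, j), some (k, j + 1)} : Finset (Option (ℕ × ℕ)))).subset fun y hy => ?_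
    by_contra h
    exact hy (bT_some_eq_zero k j y h)

lemma muT_pos (x : Option (ℕ × ℕ)) : 0 < muT x := by
  rcases x with _ | ⟨k, j⟩ <;> simp only [muT] <;> positivity

lemma op_uT (n : ℕ) :
    formalOp (E := fun _ => ℂ) bT muT (fun _ _ => LinearIsometryEquiv.refl ℂ ℂ) (fun _ => 0)
      (uT n) = gT := by
  funext x
  rcases x with _ | ⟨k, j⟩
  · simp only [formalOp, muT, gT]
    rw [tsum_eq_single (some (n, 0))]
    · simp [bT, uT]
    · rintro (_ | ⟨k, j⟩) hy
      · simp [bT]
      · by_cases hj : j = 0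
        · subst hj
          have hk : k ≠ n := fun h => hy (by rw [h])
          simp [uT, hk]
        · simp [bT, hj]
  · simp only [formalOp, gT]
    rw [tsum_eq_sum (s := {prev (k, j), some (k, j + 1)})
      (fun y hy => by simp [bT_some_eq_zero k j y hy]), Finset.sum_pair (prev_ne k j)]
    rcases j with _ | j
    · by_cases hk : k = n
      · subst hk
        simp [bT, uT, prev]
        ring_nf
        simp
      · simp [bT, uT, prev, hk]
    · by_cases hk : k = n
      · subst hk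
        simp [bT, uT, prev]
        ring_nf
        simp
      · simp [bT, uT, prev, hk]

lemma hasSum_uT (n : ℕ) :
    HasSum (fun x => ‖uT n x‖ ^ 2 * muT x) ((1 / 2 : ℝ) ^ n * 2) := by
  have hinj : Function.Injective fun j : ℕ => (some (n, j) : Option (ℕ × ℕ)) := by
    intro a b h
    simpa using h
  rw [← hinj.hasSum_iff]
  · have : ((fun x => ‖uT n x‖ ^ 2 * muT x) ∘ fun j : ℕ => (some (n, j) : Option (ℕ × ℕ))) =
        fun j => (1 / 2 : ℝ) ^ n * (1 / 2) ^ j := by
      funext j
      have h1 : ‖((j : ℂ) + 1)‖ = (j : ℝ) + 1 := by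
        have : ((j : ℂ) + 1) = (((j : ℝ) + 1 : ℝ) : ℂ) := by push_cast; rfl
        rw [this, Complex.norm_real, Real.norm_of_nonneg (by positivity)]
      have h8 : (1 / 8 : ℝ) ^ n * (2 ^ n) ^ 2 = (1 / 2) ^ n := by
        rw [← pow_mul, mul_comm n 2, pow_mul, ← mul_pow]
        norm_num
      simp only [Function.comp, uT, muT, if_true, norm_mul, norm_pow, h1, Complex.norm_ofNat]
      rw [← h8]
      field_simp
    rw [this]
    exact hasSum_geometric_two.mul_left _
  · rintro (_ | ⟨k, j⟩) hx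
    · simp [uT]
    · have hk : k ≠ n := fun h => hx ⟨j, by simp [h]⟩
      simp [uT, hk]

lemma memL2_gT : MemL2 (E := fun _ => ℂ) muT gT := by
  refine summable_of_ne_finset_zero (s := {none}) ?_
  rintro (_ | x) hx
  · simp at hx
  · simp [gT]

lemma dom_uT (n : ℕ) :
    InMaxDomain (E := fun _ => ℂ) bT muT (fun _ _ => LinearIsometryEquiv.refl ℂ ℂ) (fun _ => 0)
      (uT n) := by
  refine ⟨?_, (hasSum_uT n).summable, by rw [op_uT]; exact memL2_gT⟩
  rintro (_ | ⟨k, j⟩)
  · refine summable_of_ne_finset_zero (s := {some (n, 0)}) ?_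
    rintro (_ | ⟨k, j⟩) hy
    · simp [bT]
    · by_cases hj : j = 0
      · subst hj
        have hk : k ≠ n := fun h => hy (by simp [h])
        simp [uT, hk]
      · simp [bT, hj]
  · exact summable_of_ne_finset_zero (s := {prev (k, j), some (k, j + 1)})
      (fun y hy => by simp [bT_some_eq_zero k j y hy])

lemma op_zero :
    formalOp (E := fun _ => ℂ) bT muT (fun _ _ => LinearIsometryEquiv.refl ℂ ℂ) (fun _ => 0)
      0 = 0 := by
  funext x
  simp [formalOp]

lemma closure_gT :
    InGraphClosure (E := fun _ => ℂ) bT muT (fun _ _ => LinearIsometryEquiv.refl ℂ ℂ) (fun _ => 0)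
      0 gT := by
  refine ⟨by simp [MemL2, summable_zero], memL2_gT, uT, dom_uT, ?_, ?_⟩
  · have h : ∀ n, normL2 (E := fun _ => ℂ) muT (uT n - 0) = Real.sqrt ((1 / 2 : ℝ) ^ n * 2) := by
      intro n
      simp only [normL2, sub_zero, (hasSum_uT n).tsum_eq]
    simp only [h]
    have h2 : Tendsto (fun n : ℕ => (1 / 2 : ℝ) ^ n * 2) atTop (𝓝 (0 * 2)) :=
      (tendsto_pow_atTop_nhds_zero_of_lt_one (by norm_num) (by norm_num)).mul_const 2
    simpa using h2.sqrt
  · simp [op_uT, normL2]

lemma closure_zero :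
    InGraphClosure (E := fun _ => ℂ) bT muT (fun _ _ => LinearIsometryEquiv.refl ℂ ℂ) (fun _ => 0)
      0 0 := by
  refine ⟨by simp [MemL2, summable_zero], by simp [MemL2, summable_zero], fun _ => 0,
    fun _ => ⟨fun x => by simp [summable_zero], by simp [MemL2, summable_zero], ?_⟩, ?_, ?_⟩
  · rw [op_zero]
    simp [MemL2, summable_zero]
  · simp [normL2]
  · simp [op_zero, normL2]

lemma gT_ne_zero : gT ≠ 0 := fun h => by
  have := congrFun h none
  simp [gT] at this

/-- Already in the scalar case with `W = 0` (the graph Laplacian), on a connected graph in which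
all vertices but one have finitely many neighbours, the maximal restriction need not be closed,
and not even closable. -/
theorem result :
    ∃ (X : Type) (_ : Countable X) (b : X → X → ℝ) (μ : X → ℝ),
      IsWeightedGraph b ∧ IsConnectedGraph b ∧ (∃ o, ∀ x, x ≠ o → {y | b x y ≠ 0}.Finite) ∧
      (∀ x, 0 < μ x) ∧
      ¬ MaxIsClosed (E := fun _ => ℂ) b μ (fun _ _ => LinearIsometryEquiv.refl ℂ ℂ) (fun _ => 0) ∧
      ¬ MaxIsClosable (E := fun _ => ℂ) b μ (fun _ _ => LinearIsometryEquiv.refl ℂ ℂ)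
        (fun _ => 0) := by
  refine ⟨Option (ℕ × ℕ), inferInstance, bT, muT, graph_bT, conn_bT, ⟨none, locFin_bT⟩, muT_pos,
    fun h => ?_, fun h => ?_⟩
  · have := (h 0 gT closure_gT).2
    rw [op_zero] at this
    exact gT_ne_zero this.symm
  · exact gT_ne_zero (h 0 gT 0 closure_gT closure_zero)

end Pool.Agent.Results.MP_43f217_an.ConnNotClosed
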